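import Pool.Agent.helper7.IG.Stmt1
import Pool.Agent.helper12.PE.QDelta

/-!
# IG: module MB3, expansions of the coefficients of the modular equation
-/

set_option autoImplicit false

open Polynomial UpperHalfPlane
open scoped MatrixGroups

noncomputable section

namespace Pool.Agent.helper7.IG

open Pool.Agent.helper12.PE (ext hasSum_ext qParam_mul qExpansion_discriminant)

/-! ### Power series converging on the unit disc -/

/-- Absolute convergence on the open unit disc. -/
def mb3_Cv (F : PowerSeries ℂ) : Prop :=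
  ∀ r : ℝ, 0 < r → r < 1 → Summable (fun n => ‖PowerSeries.coeff n F‖ * r ^ n)

/-- The value. -/
def mb3_ev (x : ℂ) (F : PowerSeries ℂ) : ℂ := ∑' n, PowerSeries.coeff n F * x ^ n

lemma mb3_Cv.summable {F : PowerSeries ℂ} (h : mb3_Cv F) {x : ℂ} (hx : ‖x‖ < 1) :
    Summable (fun n => ‖PowerSeries.coeff n F * x ^ n‖) := by
  obtain ⟨r, h1, h2⟩ := exists_between hx
  refine Summable.of_nonneg_of_le (fun n => norm_nonneg _) (fun n => ?_)
    (h r (lt_of_le_of_lt (norm_nonneg _) h1) h2)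
  rw [norm_mul, norm_pow]
  gcongr

lemma mb3_Cv_add {F G : PowerSeries ℂ} (hF : mb3_Cv F) (hG : mb3_Cv G) : mb3_Cv (F + G) := by
  intro r h0 h1
  refine Summable.of_nonneg_of_le (fun n => by positivity) (fun n => ?_)
    ((hF r h0 h1).add (hG r h0 h1))
  rw [map_add, ← add_mul]
  gcongr
  exact norm_add_le _ _

lemma mb3_Cv_neg {F : PowerSeries ℂ} (hF : mb3_Cv F) : mb3_Cv (-F) := by
  intro r h0 h1
  simpa using hF r h0 h1

lemma mb3_Cv_mul {F G : PowerSeries ℂ} (hF : mb3_Cv F) (hG : mb3_Cv G) : mb3_Cv (F * G) := by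
  intro r h0 h1
  have hf : Summable (fun n => ‖‖PowerSeries.coeff n F‖ * r ^ n‖) := by
    have := hF r h0 h1
    refine this.congr fun n => ?_
    rw [Real.norm_of_nonneg (by positivity)]
  have hg : Summable (fun n => ‖‖PowerSeries.coeff n G‖ * r ^ n‖) := by
    have := hG r h0 h1
    refine this.congr fun n => ?_
    rw [Real.norm_of_nonneg (by positivity)]
  have h := summable_norm_sum_mul_antidiagonal_of_summable_norm hf hg
  refine Summable.of_nonneg_of_le (fun n => by positivity) (fun n => ?_) h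
  rw [PowerSeries.coeff_mul, Real.norm_of_nonneg (Finset.sum_nonneg fun i _ => by positivity)]
  calc ‖∑ q ∈ Finset.HasAntidiagonal.antidiagonal n, PowerSeries.coeff q.1 F * PowerSeries.coeff q.2 G‖ * r ^ n
      ≤ (∑ q ∈ Finset.HasAntidiagonal.antidiagonal n, ‖PowerSeries.coeff q.1 F * PowerSeries.coeff q.2 G‖) *
          r ^ n := by
        gcongr
        exact norm_sum_le _ _
    _ = _ := by
        rw [Finset.sum_mul]
        refine Finset.sum_congr rfl fun q hq => ?_
        have hq' : q.1 + q.2 = n := by simpa using hq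
        rw [← hq', norm_mul, pow_add]
        ring

lemma mb3_Cv_C (c : ℂ) : mb3_Cv (PowerSeries.C c) := by
  intro r h0 h1
  refine summable_of_ne_finset_zero (s := {0}) fun n hn => ?_
  rw [PowerSeries.coeff_C, if_neg (by simpa using hn)]
  simp

lemma mb3_Cv_X : mb3_Cv (PowerSeries.X : PowerSeries ℂ) := by
  intro r h0 h1
  refine summable_of_ne_finset_zero (s := {1}) fun n hn => ?_
  rw [PowerSeries.coeff_X, if_neg (by simpa using hn)]
  simp

/-- The subring of convergent series. -/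
def mb3_CS : Subring (PowerSeries ℂ) where
  carrier := {F | mb3_Cv F}
  zero_mem' := by
    have := mb3_Cv_C 0
    rwa [map_zero] at this
  one_mem' := by
    have := mb3_Cv_C 1
    rwa [map_one] at this
  add_mem' := mb3_Cv_add
  mul_mem' := mb3_Cv_mul
  neg_mem' := mb3_Cv_neg

lemma mb3_ev_C (x c : ℂ) : mb3_ev x (PowerSeries.C c) = c := by
  unfold mb3_ev
  rw [tsum_eq_single 0]
  · simp
  · intro n hn
    rw [PowerSeries.coeff_C, if_neg hn, zero_mul]

/-- Evaluation as a ring homomorphism. -/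
def mb3_evh (x : ℂ) (hx : ‖x‖ < 1) : mb3_CS →+* ℂ where
  toFun F := mb3_ev x F
  map_one' := by
    change mb3_ev x 1 = 1
    have := mb3_ev_C x 1
    rwa [map_one] at this
  map_zero' := by
    change mb3_ev x 0 = 0
    have := mb3_ev_C x 0
    rwa [map_zero] at this
  map_add' F G := by
    change mb3_ev x ((F : PowerSeries ℂ) + (G : PowerSeries ℂ)) = _
    unfold mb3_ev
    rw [← Summable.tsum_add ((F.2 : mb3_Cv _).summable hx).of_norm
      ((G.2 : mb3_Cv _).summable hx).of_norm]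
    refine tsum_congr fun n => ?_
    rw [map_add, add_mul]
  map_mul' F G := by
    change mb3_ev x ((F : PowerSeries ℂ) * (G : PowerSeries ℂ)) = _
    unfold mb3_ev
    rw [tsum_mul_tsum_eq_tsum_sum_antidiagonal_of_summable_norm ((F.2 : mb3_Cv _).summable hx)
      ((G.2 : mb3_Cv _).summable hx)]
    refine tsum_congr fun n => ?_
    rw [PowerSeries.coeff_mul, Finset.sum_mul]
    refine Finset.sum_congr rfl fun q hq => ?_
    have hq' : q.1 + q.2 = n := by simpa using hq
    rw [← hq', pow_add]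
    ring

lemma mb3_evh_apply (x : ℂ) (hx : ‖x‖ < 1) (F : mb3_CS) : mb3_evh x hx F = mb3_ev x F := rfl

/-! ### Operations -/

lemma mb3_Cv_expand {p : ℕ} (hp : p ≠ 0) {F : PowerSeries ℂ} (hF : mb3_Cv F) :
    mb3_Cv (PowerSeries.expand p hp F) := by
  intro r h0 h1
  have hinj : Function.Injective (fun m : ℕ => p * m) :=
    fun _ _ h => Nat.eq_of_mul_eq_mul_left (Nat.pos_of_ne_zero hp) h
  rw [← hinj.summable_iff]
  · refine (hF (r ^ p) (by positivity) (pow_lt_one₀ h0.le h1 hp)).congr fun n => ?_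
    simp only [Function.comp_apply]
    rw [PowerSeries.coeff_expand_mul, pow_mul]
  · intro n hn
    have : ¬ p ∣ n := by
      rintro ⟨m, rfl⟩
      exact hn ⟨m, rfl⟩
    rw [PowerSeries.coeff_expand_of_not_dvd p hp _ this]
    simp

lemma mb3_ev_expand {p : ℕ} (hp : p ≠ 0) (F : PowerSeries ℂ) (x : ℂ) :
    mb3_ev x (PowerSeries.expand p hp F) = mb3_ev (x ^ p) F := by
  have hinj : Function.Injective (fun m : ℕ => p * m) :=
    fun _ _ h => Nat.eq_of_mul_eq_mul_left (Nat.pos_of_ne_zero hp) h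
  unfold mb3_ev
  rw [← hinj.tsum_eq]
  · refine tsum_congr fun n => ?_
    rw [PowerSeries.coeff_expand_mul, pow_mul]
  · intro n hn
    by_contra h
    have : ¬ p ∣ n := by
      rintro ⟨m, rfl⟩
      exact h ⟨m, rfl⟩
    apply hn
    change PowerSeries.coeff n (PowerSeries.expand p hp F) * x ^ n = 0
    rw [PowerSeries.coeff_expand_of_not_dvd p hp _ this, zero_mul]

lemma mb3_Cv_rescale {a : ℂ} (ha : ‖a‖ = 1) {F : PowerSeries ℂ} (hF : mb3_Cv F) :
    mb3_Cv (PowerSeries.rescale a F) := by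
  intro r h0 h1
  refine (hF r h0 h1).congr fun n => ?_
  rw [PowerSeries.coeff_rescale, norm_mul, norm_pow, ha, one_pow, one_mul]

lemma mb3_ev_rescale (a : ℂ) (F : PowerSeries ℂ) (x : ℂ) :
    mb3_ev x (PowerSeries.rescale a F) = mb3_ev (a * x) F := by
  unfold mb3_ev
  refine tsum_congr fun n => ?_
  rw [PowerSeries.coeff_rescale, mul_pow]
  ring

lemma mb3_Cv_section {p : ℕ} (hp : p ≠ 0) (j : ℕ) {F : PowerSeries ℂ} (hF : mb3_Cv F) :
    mb3_Cv (PowerSeries.mk fun n => PowerSeries.coeff (p * n + j) F) := by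
  intro r h0 h1
  set s : ℝ := r ^ ((p : ℝ)⁻¹) with hs
  have hs0 : 0 < s := Real.rpow_pos_of_pos h0 _
  have hs1 : s < 1 := Real.rpow_lt_one h0.le h1 (by positivity)
  have hsp : s ^ p = r := by
    rw [hs]
    exact Real.rpow_inv_natCast_pow h0.le hp
  have hinj : Function.Injective (fun m : ℕ => p * m + j) := by
    intro a b h
    exact Nat.eq_of_mul_eq_mul_left (Nat.pos_of_ne_zero hp) (Nat.add_right_cancel h)
  have h := ((hF s hs0 hs1).comp_injective hinj).mul_right (s ^ j)⁻¹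
  refine h.congr fun n => ?_
  simp only [Function.comp_apply, PowerSeries.coeff_mk]
  rw [pow_add, pow_mul, hsp]
  field_simp

lemma mb3_Cv_mulMat {p : ℕ} (hp : p ≠ 0) {F : PowerSeries ℂ} (hF : mb3_Cv F) (k i : Fin p) :
    mb3_Cv (mulMat p F k i) := by
  rw [mulMat, Matrix.of_apply]
  split_ifs with h
  · exact mb3_Cv_section hp _ hF
  · exact mb3_Cv_mul mb3_Cv_X (mb3_Cv_section hp _ hF)

/-! ### The discriminant -/

/-- The discriminant as a modular form. -/
def mb3_F : ModularForm 𝒮ℒ ((12 : ℕ) : ℤ) := (CuspForm.discriminant : ModularForm 𝒮ℒ 12)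

lemma mb3_dC (z : ℂ) : dC z = ext mb3_F z := rfl

/-- The complex expansion. -/
def mb3_DC : PowerSeries ℂ := PowerSeries.map (Int.castRingHom ℂ) DZ

lemma mb3_hasSum {w : ℂ} (hw : 0 < w.im) :
    HasSum (fun m => PowerSeries.coeff m mb3_DC * Function.Periodic.qParam 1 w ^ m) (dC w) := by
  have h := hasSum_ext mb3_F hw
  have h2 : qExpansion 1 mb3_F = mb3_DC := qExpansion_discriminant
  rw [h2] at h
  exact h

lemma mb3_ev_DC {w : ℂ} (hw : 0 < w.im) :
    mb3_ev (Function.Periodic.qParam 1 w) mb3_DC = dC w := (mb3_hasSum hw).tsum_eq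

lemma mb3_Cv_DC : mb3_Cv mb3_DC := by
  intro r h0 h1
  have hr : (r : ℂ) ≠ 0 := by exact_mod_cast h0.ne'
  have him : 0 < (Function.Periodic.invQParam 1 (r : ℂ)).im := by
    refine Function.Periodic.im_invQParam_pos_of_norm_lt_one one_pos ?_ hr
    rw [Complex.norm_real, Real.norm_of_nonneg h0.le]
    exact h1
  have h := (mb3_hasSum him).summable.norm
  rw [Function.Periodic.qParam_right_inv one_ne_zero hr] at h
  refine h.congr fun n => ?_
  rw [norm_mul, norm_pow, Complex.norm_real, Real.norm_of_nonneg h0.le]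

/-! ### The main computation -/

/-- The discriminant in the subring. -/
def mb3_D : mb3_CS := ⟨mb3_DC, mb3_Cv_DC⟩

/-- The multiplication matrix over the subring. -/
def mb3_M (p : ℕ) (hp : p ≠ 0) : Matrix (Fin p) (Fin p) mb3_CS :=
  Matrix.of fun k i => ⟨mulMat p mb3_DC k i, mb3_Cv_mulMat hp mb3_Cv_DC k i⟩

lemma mb3_M_map (p : ℕ) (hp : p ≠ 0) :
    (mb3_M p hp).charpoly.map mb3_CS.subtype = (mulMat p mb3_DC).charpoly := by
  rw [← Matrix.charpoly_map]
  rfl

/-- The expansion on the subring. -/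
def mb3_expand (p : ℕ) (hp : p ≠ 0) : mb3_CS →+* mb3_CS :=
  ((PowerSeries.expand p hp).toRingHom.comp mb3_CS.subtype).codRestrict mb3_CS
    fun F => mb3_Cv_expand hp F.2

/-- The polynomial over the subring. -/
def mb3_Phi (p : ℕ) (hp : p ≠ 0) : Polynomial mb3_CS :=
  (mb3_M p hp).charpoly * (X - C ((p : mb3_CS) ^ 12 * mb3_expand p hp mb3_D))

lemma mb3_sub_inj : Function.Injective mb3_CS.subtype := Subtype.val_injective

lemma mb3_prod (hMA : MA_stmt) (p : ℕ) (hp : p ≠ 0) (ω : ℂ) (hω : IsPrimitiveRoot ω p)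
    (x : ℂ) (hx : ‖x‖ < 1) (hxp : ‖x ^ p‖ < 1) :
    (mb3_M p hp).charpoly.map (mb3_evh (x ^ p) hxp) =
      ∏ j ∈ Finset.range p, (X - C (mb3_ev (ω ^ j * x) mb3_DC)) := by
  have hn : ‖ω‖ = 1 := hω.norm'_eq_one hp
  have hnj : ∀ j : ℕ, ‖ω ^ j‖ = 1 := fun j => by rw [norm_pow, hn, one_pow]
  have h1 := hMA.2 ℂ p hp ω mb3_DC hω
  have h2 : (mb3_M p hp).charpoly.map (mb3_expand p hp) =
      ∏ j ∈ Finset.range p, (X - C (⟨PowerSeries.rescale (ω ^ j) mb3_DC,
        mb3_Cv_rescale (hnj j) mb3_Cv_DC⟩ : mb3_CS)) := by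
    apply Polynomial.map_injective _ mb3_sub_inj
    rw [Polynomial.map_map, Polynomial.map_prod]
    have e1 : mb3_CS.subtype.comp (mb3_expand p hp) =
        (PowerSeries.expand p hp).toRingHom.comp mb3_CS.subtype := rfl
    rw [e1, ← Polynomial.map_map, mb3_M_map, h1]
    refine Finset.prod_congr rfl fun j _ => ?_
    rw [Polynomial.map_sub, Polynomial.map_X, Polynomial.map_C]
    rfl
  have h3 : (mb3_evh x hx).comp (mb3_expand p hp) = mb3_evh (x ^ p) hxp := by
    ext F
    exact mb3_ev_expand hp F x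
  rw [← h3, ← Polynomial.map_map, h2, Polynomial.map_prod]
  refine Finset.prod_congr rfl fun j _ => ?_
  rw [Polynomial.map_sub, Polynomial.map_X, Polynomial.map_C, mb3_evh_apply]
  congr 2
  exact mb3_ev_rescale _ _ _

lemma mb3_Phi_map (hMA : MA_stmt) (p : ℕ) (hp : p ≠ 0) :
    (mb3_Phi p hp).map mb3_CS.subtype =
      (PhiZ p hp).map (PowerSeries.map (Int.castRingHom ℂ)) := by
  have h1 := hMA.1 ℤ ℂ (Int.castRingHom ℂ) p DZ
  rw [mb3_Phi, PhiZ, Polynomial.map_mul, Polynomial.map_mul, mb3_M_map, h1]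
  congr 1
  rw [Polynomial.map_sub, Polynomial.map_sub, Polynomial.map_X, Polynomial.map_X,
    Polynomial.map_C, Polynomial.map_C]
  congr 2
  rw [map_mul, map_mul, map_pow, map_pow, map_natCast, map_natCast]
  congr 1
  change PowerSeries.expand p hp mb3_DC = _
  ext n
  rw [PowerSeries.coeff_map, PowerSeries.coeff_expand, PowerSeries.coeff_expand]
  split_ifs with h
  · rw [mb3_DC, PowerSeries.coeff_map]
  · simp

theorem MB3_of (hMA : MA_stmt) : MB3_stmt := by
  intro p i hp hpp hi z hz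
  have hp0 : (p : ℂ) ≠ 0 := by exact_mod_cast hp
  have hpos : 0 < p := Nat.pos_of_ne_zero hp
  set q : ℂ := Function.Periodic.qParam 1 z with hq
  have hqn : ‖q‖ < 1 := by
    rw [hq]
    have := Function.Periodic.norm_qParam_lt_iff one_pos 0 z
    simpa using this.mpr (by simpa using hz)
  set x : ℂ := Function.Periodic.qParam 1 (z / p) with hx
  have hxp : x ^ p = q := by
    rw [hx, hq, ← qParam_mul]
    congr 1
    field_simp
  have hxn : ‖x‖ < 1 := by
    by_contra h
    push Not at h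
    have h2 : 1 ≤ ‖x‖ ^ p := one_le_pow₀ h
    rw [← norm_pow, hxp] at h2
    linarith
  set ω : ℂ := Complex.exp (2 * Real.pi * Complex.I / p) with hωd
  have hω : IsPrimitiveRoot ω p := Complex.isPrimitiveRoot_exp p hp
  have hxpn : ‖x ^ p‖ < 1 := by rw [hxp]; exact hqn
  have h1 := mb3_prod hMA p hp ω hω x hxn hxpn
  have h2 : ∀ j : ℕ, mb3_ev (ω ^ j * x) mb3_DC = dC ((z + j) / p) := by
    intro j
    have him : 0 < ((z + (j : ℂ)) / p).im := Pool.Agent.helper12.PE.im_div hpos hz j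
    have h3 := Pool.Agent.helper12.PE.qParam_div hpos z j 1
    rw [pow_one, pow_one, pow_one] at h3
    rw [← mb3_ev_DC him, h3, mul_comm]
  have h4 : mb3_evh (x ^ p) hxpn (mb3_expand p hp mb3_D) = dC (p * z) := by
    have him : 0 < ((p : ℂ) * z).im := Pool.Agent.helper12.PE.im_mul hpos hz
    rw [← mb3_ev_DC him, qParam_mul, ← hq, ← hxp]
    exact mb3_ev_expand hp mb3_DC (x ^ p)
  have h5 : (mb3_Phi p hp).map (mb3_evh (x ^ p) hxpn) =
      (∏ b ∈ Finset.range p, (X - C (dC ((z + b) / p)))) *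
        (X - C ((p : ℂ) ^ 12 * dC (p * z))) := by
    rw [mb3_Phi, Polynomial.map_mul, h1, Polynomial.map_sub, Polynomial.map_X, Polynomial.map_C,
      map_mul, map_pow, map_natCast, h4]
    simp_rw [h2]
  have h6 : GG p i z = mb3_ev q ((mb3_Phi p hp).coeff (p + 1 - i) : mb3_CS) := by
    rw [GG, ← h5, Polynomial.coeff_map, mb3_evh_apply, hxp]
  have h7 : (((mb3_Phi p hp).coeff (p + 1 - i) : mb3_CS) : PowerSeries ℂ) =
      PowerSeries.map (Int.castRingHom ℂ) ((PhiZ p hp).coeff (p + 1 - i)) := by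
    have h8 := congrArg (fun P => P.coeff (p + 1 - i)) (mb3_Phi_map hMA p hp)
    simp only [Polynomial.coeff_map] at h8
    exact h8
  have h9 := ((((mb3_Phi p hp).coeff (p + 1 - i)).2 : mb3_Cv _).summable hqn).of_norm.hasSum
  rw [h6]
  have h10 : (fun n => (((PowerSeries.coeff n ((PhiZ p hp).coeff (p + 1 - i)) : ℤ)) : ℂ) * q ^ n) =
      fun n => PowerSeries.coeff n
        (((mb3_Phi p hp).coeff (p + 1 - i) : mb3_CS) : PowerSeries ℂ) * q ^ n := by
    funext n
    rw [h7, PowerSeries.coeff_map]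
    simp
  rw [h10]
  exact h9

end Pool.Agent.helper7.IG
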